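import Mathlib

set_option autoImplicit false

/-! # Project YP, (E1): multiple components are not created by blowing up -/

namespace Pool.Agent.J4H97.YP

open MvPolynomial

section

variable {K : Type} [Field K]

theorem sqf_dec (G : MvPolynomial (Fin 2) K) : G ≠ 0 → ∃ h κ : MvPolynomial (Fin 2) K,
    G = h ^ 2 * κ ∧ Squarefree κ := by
  refine (IsWellFounded.wf : WellFounded (DvdNotUnit (α := MvPolynomial (Fin 2) K))).induction
    (C := fun G => G ≠ 0 → ∃ h κ : MvPolynomial (Fin 2) K, G = h ^ 2 * κ ∧ Squarefree κ) G ?_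
  intro G ih hG
  by_cases hs : Squarefree G
  · exact ⟨1, G, by ring, hs⟩
  · unfold Squarefree at hs
    push Not at hs
    obtain ⟨x, ⟨G', hG'⟩, hx⟩ := hs
    have h1 : G' ≠ 0 := by
      rintro rfl
      exact hG (by rw [hG', mul_zero])
    obtain ⟨h, κ, h2, h3⟩ := ih G' ⟨h1, x * x, fun h => hx (isUnit_of_mul_isUnit_left h), by
      rw [hG']; ring⟩ h1
    exact ⟨x * h, κ, by rw [hG', h2]; ring, h3⟩

/-- a prime factor in a prime ideal -/
theorem prime_factor {R : Type} [CommRing R] [IsDomain R] [UniqueFactorizationMonoid R] {I : Ideal R}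
    (hI : I.IsPrime) {a : R} (ha : a ≠ 0) (haI : a ∈ I) : ∃ q, Prime q ∧ q ∣ a ∧ q ∈ I := by
  obtain ⟨f, hf, hfa⟩ := UniqueFactorizationMonoid.exists_prime_factors a ha
  have h1 : f.prod ∈ I := by
    obtain ⟨u, hu⟩ := hfa.symm
    rw [← hu]
    exact I.mul_mem_right _ haI
  obtain ⟨q, hq, hqI⟩ := (hI.multiset_prod_mem_iff_exists_mem f).1 h1
  exact ⟨q, hf q hq, (Multiset.dvd_prod hq).trans hfa.dvd, hqI⟩

theorem chain (φ : K →+* ℂ) (ξ : Fin 2 → MvPolynomial (Fin 2) ℂ) (j : Fin 2) (F : MvPolynomial (Fin 2) K) :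
    pderiv j (eval₂Hom (C.comp φ) ξ F) =
      eval₂Hom (C.comp φ) ξ (pderiv 0 F) * pderiv j (ξ 0) +
        eval₂Hom (C.comp φ) ξ (pderiv 1 F) * pderiv j (ξ 1) := by
  induction F using MvPolynomial.induction_on with
  | C a => simp
  | add p q hp hq =>
    rw [map_add, map_add, hp, hq, map_add, map_add, map_add, map_add]
    ring
  | mul_X p n hp =>
    rw [map_mul, Derivation.leibniz, hp, Derivation.leibniz, Derivation.leibniz, eval₂Hom_X']
    simp only [smul_eq_mul, map_add, map_mul, eval₂Hom_X']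
    fin_cases n
    · simp
      ring
    · simp
      ring

theorem pd_eq_zero [CharZero K] {q : MvPolynomial (Fin 2) K} (h0 : pderiv 0 q = 0) (h1 : pderiv 1 q = 0) :
    ∃ c, q = C c := by
  classical
  refine ⟨coeff 0 q, ?_⟩
  ext m
  by_cases hm : m = 0
  · rw [hm, coeff_C, if_pos rfl]
  · rw [coeff_C, if_neg (Ne.symm hm)]
    obtain ⟨i, hi⟩ := Finsupp.ne_iff.1 hm
    have hi' : m i ≠ 0 := hi
    have hq : pderiv i q = 0 := by
      fin_cases i
      · exact h0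
      · exact h1
    have h2 : coeff (m - Finsupp.single i 1) (pderiv i q) = 0 := by rw [hq, coeff_zero]
    rw [coeff_pderiv] at h2
    have h3 : m - Finsupp.single i 1 + Finsupp.single i 1 = m := by
      ext j
      by_cases hj : j = i
      · subst hj
        simp
        omega
      · simp [Ne.symm hj]
    rw [h3] at h2
    rcases mul_eq_zero.1 h2 with h4 | h4
    · exact h4
    · exfalso
      have h5 : ((((m - Finsupp.single i 1 : Fin 2 →₀ ℕ) i) + 1 : ℕ) : K) = 0 := by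
        push_cast
        exact h4
      rw [Nat.cast_eq_zero] at h5
      omega

/-- the dimension of the plane -/
theorem max_of_two {𝔭 : Ideal (MvPolynomial (Fin 2) K)} (hp : 𝔭.IsPrime) {q s : MvPolynomial (Fin 2) K}
    (hq : Prime q) (hq𝔭 : q ∈ 𝔭) (hs𝔭 : s ∈ 𝔭) (hqs : ¬ q ∣ s) : 𝔭.IsMaximal := by
  obtain ⟨M, hM, hle⟩ := Ideal.exists_le_maximal 𝔭 hp.ne_top
  by_cases hpM : 𝔭 = M
  · rw [hpM]; exact hM
  exfalso
  have hlt : 𝔭 < M := lt_of_le_of_ne hle hpM
  have h1 : Ideal.span {q} < 𝔭 := by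
    refine lt_of_le_of_ne ((Ideal.span_singleton_le_iff_mem _).2 hq𝔭) ?_
    intro h
    rw [← h, Ideal.mem_span_singleton] at hs𝔭
    exact hqs hs𝔭
  have h0 : (⊥ : Ideal (MvPolynomial (Fin 2) K)) < Ideal.span {q} := by
    rw [bot_lt_iff_ne_bot, Ne, Ideal.span_singleton_eq_bot]
    exact hq.ne_zero
  have hdim : ringKrullDim (MvPolynomial (Fin 2) K) = 2 := by
    rw [MvPolynomial.ringKrullDim_of_isNoetherianRing, ringKrullDim_eq_zero_of_field]
    simp
  let a : PrimeSpectrum (MvPolynomial (Fin 2) K) := ⟨⊥, Ideal.isPrime_bot⟩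
  let b : PrimeSpectrum (MvPolynomial (Fin 2) K) := ⟨Ideal.span {q}, (Ideal.span_singleton_prime hq.ne_zero).2 hq⟩
  let c : PrimeSpectrum (MvPolynomial (Fin 2) K) := ⟨𝔭, hp⟩
  let d : PrimeSpectrum (MvPolynomial (Fin 2) K) := ⟨M, hM.isPrime⟩
  have hab : a < b := h0
  have hbc : b < c := h1
  have hcd : c < d := hlt
  let L : LTSeries (PrimeSpectrum (MvPolynomial (Fin 2) K)) :=
    { length := 3
      toFun := ![a, b, c, d]
      step := fun i => by
        fin_cases i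
        · exact hab
        · exact hbc
        · exact hcd }
  have h2 := Order.LTSeries.length_le_krullDim L
  have h3 : Order.krullDim (PrimeSpectrum (MvPolynomial (Fin 2) K)) = 2 := hdim
  rw [h3] at h2
  have h4 : ((3 : ℕ) : WithBot ℕ∞) ≤ ((2 : ℕ) : WithBot ℕ∞) := h2
  have h5 : (3 : ℕ) ≤ 2 := by exact_mod_cast h4
  omega

/-- closed points have algebraic coordinates -/
theorem alg_of_max {𝔭 : Ideal (MvPolynomial (Fin 2) K)} (hp : 𝔭.IsMaximal) (i : Fin 2) :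
    ∃ P : Polynomial K, P ≠ 0 ∧ Polynomial.aeval (X i : MvPolynomial (Fin 2) K) P ∈ 𝔭 := by
  let _ : Field (MvPolynomial (Fin 2) K ⧸ 𝔭) := Ideal.Quotient.field 𝔭
  have h1 : Module.Finite K (MvPolynomial (Fin 2) K ⧸ 𝔭) :=
    finite_of_algHom_finiteType_of_isJacobsonRing (AlgHom.id K (MvPolynomial (Fin 2) K ⧸ 𝔭))
  have h2 : IsAlgebraic K (Ideal.Quotient.mkₐ K 𝔭 (X i)) := Algebra.IsAlgebraic.isAlgebraic _
  obtain ⟨P, hP, hP2⟩ := h2
  refine ⟨P, hP, ?_⟩
  rw [Polynomial.aeval_algHom_apply] at hP2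
  exact (Ideal.Quotient.mkₐ_eq_mk K 𝔭 ▸ Ideal.Quotient.eq_zero_iff_mem.1) hP2

/-- a factor of a polynomial in one coordinate -/
theorem dvd_sub_of_alg (φ : K →+* ℂ) {π : MvPolynomial (Fin 2) ℂ} (hπ : Prime π) (x : MvPolynomial (Fin 2) ℂ)
    {P : Polynomial K} (hP : P ≠ 0) (h : π ∣ Polynomial.aeval x (P.map φ)) : ∃ α : ℂ, π ∣ x - C α := by
  have hs := (IsAlgClosed.splits (P.map φ)).eq_prod_roots
  rw [hs, map_mul, Polynomial.aeval_C, map_multiset_prod, Multiset.map_map] at h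
  have hl : (P.map φ).leadingCoeff ≠ 0 := by
    rw [Ne, Polynomial.leadingCoeff_eq_zero, Polynomial.map_eq_zero]
    exact hP
  rcases hπ.dvd_or_dvd h with h1 | h1
  · exfalso
    apply hπ.not_isUnit
    refine isUnit_of_dvd_unit h1 ?_
    exact (isUnit_iff_ne_zero.2 hl).map (algebraMap ℂ (MvPolynomial (Fin 2) ℂ))
  · obtain ⟨α, _, hα⟩ := hπ.exists_mem_multiset_map_dvd h1
    refine ⟨α, ?_⟩
    simpa using hα

theorem pd_dvd {R : Type} [CommRing R] {π x y : MvPolynomial (Fin 2) R} (h : x = π ^ 2 * y) (j : Fin 2) :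
    π ∣ pderiv j x := by
  rw [h, Derivation.leibniz, Derivation.leibniz_pow]
  refine Dvd.intro (π * pderiv j y + 2 * y * pderiv j π) ?_
  simp only [smul_eq_mul, nsmul_eq_mul]
  push_cast
  ring

theorem degreeOf_pd_lt {i : Fin 2} {q : MvPolynomial (Fin 2) K} (h : pderiv i q ≠ 0) :
    degreeOf i (pderiv i q) < degreeOf i q := by
  classical
  have key : ∀ m ∈ (pderiv i q).support, m i + 1 ≤ degreeOf i q := by
    intro m hm
    rw [mem_support_iff, coeff_pderiv] at hm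
    have h1 : m + Finsupp.single i 1 ∈ q.support := by
      rw [mem_support_iff]
      exact left_ne_zero_of_mul hm
    have h2 := monomial_le_degreeOf i h1
    simpa using h2
  obtain ⟨m, hm⟩ := Finset.nonempty_iff_ne_empty.2 (fun h1 => h (support_eq_empty.1 h1))
  have h0 := key m hm
  rw [degreeOf_lt_iff (by omega)]
  intro m hm
  have := key m hm
  omega

/-- **Multiple components are not created.** -/
theorem no_mult [CharZero K] (φ : K →+* ℂ) {G : MvPolynomial (Fin 2) K} (hG : G ≠ 0)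
    (hred : ∀ h κ : MvPolynomial (Fin 2) K, G = h ^ 2 * κ → constantCoeff h ≠ 0)
    {ξ : Fin 2 → MvPolynomial (Fin 2) ℂ} (hξ : ∀ i, constantCoeff (ξ i) = 0)
    {π : MvPolynomial (Fin 2) ℂ} (hπ : Prime π) (hπ0 : constantCoeff π = 0)
    (h2 : π ^ 2 ∣ eval₂Hom (C.comp φ) ξ G)
    (hJ : ¬ π ∣ pderiv 0 (ξ 0) * pderiv 1 (ξ 1) - pderiv 1 (ξ 0) * pderiv 0 (ξ 1)) : False := by
  classical
  set ψ : MvPolynomial (Fin 2) K →+* MvPolynomial (Fin 2) ℂ := eval₂Hom (C.comp φ) ξ with hψ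
  obtain ⟨h, κ, hGh, hκ⟩ := sqf_dec G hG
  have hh := hred h κ hGh
  have hcc : ∀ F, constantCoeff (ψ F) = φ (constantCoeff F) := by
    intro F
    have h1 : (constantCoeff.comp ψ) = φ.comp constantCoeff := by
      refine MvPolynomial.ringHom_ext (fun r => ?_) fun i => ?_
      · simp [hψ]
      · simp [hψ, hξ]
    exact RingHom.congr_fun h1 F
  have hκ0 : κ ≠ 0 := by
    rintro rfl
    exact hG (by rw [hGh, mul_zero])
  -- the squarefree part
  have h3 : π ^ 2 ∣ ψ κ := by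
    have h4 : π ^ 2 ∣ ψ h ^ 2 * ψ κ := by
      rw [← map_pow, ← map_mul, ← hGh]
      exact h2
    refine hπ.pow_dvd_of_dvd_mul_left 2 (fun h5 => ?_) h4
    have h6 := hπ.dvd_of_dvd_pow h5
    obtain ⟨w, hw⟩ := h6
    have h7 := hcc h
    rw [hw, map_mul, hπ0, zero_mul] at h7
    exact hh ((map_eq_zero φ).1 h7.symm)
  obtain ⟨y, hy⟩ := h3
  have hd : ∀ j, π ∣ ψ (pderiv 0 κ) * pderiv j (ξ 0) + ψ (pderiv 1 κ) * pderiv j (ξ 1) := by
    intro j
    rw [← chain]
    exact pd_dvd hy j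
  set J := pderiv 0 (ξ 0) * pderiv 1 (ξ 1) - pderiv 1 (ξ 0) * pderiv 0 (ξ 1) with hJdef
  have hd0 : π ∣ ψ (pderiv 0 κ) := by
    have h4 : π ∣ J * ψ (pderiv 0 κ) := by
      have h5 : J * ψ (pderiv 0 κ) = (ψ (pderiv 0 κ) * pderiv 0 (ξ 0) + ψ (pderiv 1 κ) * pderiv 0 (ξ 1)) *
          pderiv 1 (ξ 1) - (ψ (pderiv 0 κ) * pderiv 1 (ξ 0) + ψ (pderiv 1 κ) * pderiv 1 (ξ 1)) *
          pderiv 0 (ξ 1) := by
        rw [hJdef]
        ring
      rw [h5]
      exact dvd_sub ((hd 0).mul_right _) ((hd 1).mul_right _)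
    exact (hπ.dvd_or_dvd h4).resolve_left hJ
  have hd1 : π ∣ ψ (pderiv 1 κ) := by
    have h4 : π ∣ J * ψ (pderiv 1 κ) := by
      have h5 : J * ψ (pderiv 1 κ) = (ψ (pderiv 0 κ) * pderiv 1 (ξ 0) + ψ (pderiv 1 κ) * pderiv 1 (ξ 1)) *
          pderiv 0 (ξ 0) - (ψ (pderiv 0 κ) * pderiv 0 (ξ 0) + ψ (pderiv 1 κ) * pderiv 0 (ξ 1)) *
          pderiv 1 (ξ 0) := by
        rw [hJdef]
        ring
      rw [h5]
      exact dvd_sub ((hd 1).mul_right _) ((hd 0).mul_right _)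
    exact (hπ.dvd_or_dvd h4).resolve_left hJ
  -- the prime ideal
  have hπI : (Ideal.span {π}).IsPrime := (Ideal.span_singleton_prime hπ.ne_zero).2 hπ
  set 𝔭 : Ideal (MvPolynomial (Fin 2) K) := Ideal.comap ψ (Ideal.span {π}) with h𝔭
  have hp : 𝔭.IsPrime := Ideal.IsPrime.comap ψ
  have hmem : ∀ F, F ∈ 𝔭 ↔ π ∣ ψ F := fun F => by
    rw [h𝔭, Ideal.mem_comap, Ideal.mem_span_singleton]
  have hκ𝔭 : κ ∈ 𝔭 := (hmem κ).2 ⟨π * y, by rw [hy]; ring⟩
  obtain ⟨q, hq, ⟨t, ht⟩, hq𝔭⟩ := prime_factor hp hκ0 hκ𝔭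
  have hqt : ¬ q ∣ t := by
    rintro ⟨t', rfl⟩
    exact hq.not_isUnit (hκ q ⟨t', by rw [ht]; ring⟩)
  have hder : ∀ i, pderiv i κ ∈ 𝔭 := by
    intro i
    rw [hmem]
    fin_cases i
    · exact hd0
    · exact hd1
  obtain ⟨s, hs𝔭, hqs⟩ : ∃ s, s ∈ 𝔭 ∧ ¬ q ∣ s := by
    by_cases ht𝔭 : t ∈ 𝔭
    · exact ⟨t, ht𝔭, hqt⟩
    · have hqd : ∀ i, pderiv i q ∈ 𝔭 := by
        intro i
        have h4 := hder i
        rw [ht, Derivation.leibniz] at h4
        simp only [smul_eq_mul] at h4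
        have h5 : t * pderiv i q ∈ 𝔭 := by
          have h6 := 𝔭.sub_mem h4 (𝔭.mul_mem_right (pderiv i t) hq𝔭)
          rwa [add_sub_cancel_left] at h6
        exact (hp.mem_or_mem h5).resolve_left ht𝔭
      obtain ⟨i, hi⟩ : ∃ i, pderiv i q ≠ 0 := by
        by_contra hno
        push Not at hno
        obtain ⟨c, hc⟩ := pd_eq_zero (hno 0) (hno 1)
        have hc0 : c ≠ 0 := by
          rintro rfl
          exact hq.ne_zero (by rw [hc, map_zero])
        apply hq.not_isUnit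
        rw [hc]
        exact (isUnit_iff_ne_zero.2 hc0).map C
      refine ⟨pderiv i q, hqd i, fun hdiv => ?_⟩
      obtain ⟨w, hw⟩ := hdiv
      have hw0 : w ≠ 0 := by
        rintro rfl
        exact hi (by rw [hw, mul_zero])
      have h4 : degreeOf i (pderiv i q) = degreeOf i q + degreeOf i w := by
        rw [hw, degreeOf_mul_eq hq.ne_zero hw0]
      have h5 := degreeOf_pd_lt hi
      omega
  have hmax := max_of_two hp hq hq𝔭 hs𝔭 hqs
  -- the coordinates are constant on the component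
  have hcon : ∀ i, ∃ α : ℂ, π ∣ ξ i - C α := by
    intro i
    obtain ⟨P, hP, hP2⟩ := alg_of_max hmax i
    rw [hmem] at hP2
    refine dvd_sub_of_alg φ hπ (ξ i) hP ?_
    have h4 : ψ (Polynomial.aeval (X i : MvPolynomial (Fin 2) K) P) = Polynomial.aeval (ξ i) (P.map φ) := by
      rw [Polynomial.aeval_def, Polynomial.hom_eval₂, Polynomial.aeval_def, Polynomial.eval₂_map]
      congr 1
      · refine RingHom.ext fun r => ?_
        simp [hψ]
      · simp [hψ]
    rw [← h4]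
    exact hP2
  obtain ⟨α, s0, hs0⟩ := hcon 0
  obtain ⟨β, s1, hs1⟩ := hcon 1
  have e0 : ξ 0 = C α + π * s0 := by rw [← hs0]; ring
  have e1 : ξ 1 = C β + π * s1 := by rw [← hs1]; ring
  apply hJ
  rw [hJdef, e0, e1]
  simp only [map_add, Derivation.leibniz, pderiv_C, smul_eq_mul, zero_add]
  refine Dvd.intro (pderiv 0 π * s0 * pderiv 1 s1 + pderiv 0 s0 * (s1 * pderiv 1 π) + π * pderiv 0 s0 * pderiv 1 s1
    - (pderiv 1 π * s0 * pderiv 0 s1 + pderiv 1 s0 * (s1 * pderiv 0 π) + π * pderiv 1 s0 * pderiv 0 s1)) ?_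
  ring

end

end Pool.Agent.J4H97.YP
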