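import Pool.Agent.J4H50.IG.Jet
import Pool.Agent.J4H97.YP.Alg

set_option autoImplicit false

/-! # Project YP, (E): isolated critical points in the plane are reduced -/

namespace Pool.Agent.J4H97.YP

open MvPolynomial Pool.Agent.J4H50.IG

theorem no_both {K : Type} [Field K] {π : MvPolynomial (Fin 2) K} (h0 : constantCoeff π = 0)
    (hX : ∀ i, π ∣ X i) : False := by
  obtain ⟨a, ha⟩ := hX 0
  obtain ⟨b, hb⟩ := hX 1
  have e1 := congrArg (fun q => constantCoeff (pderiv 0 q)) ha
  have e2 := congrArg (fun q => constantCoeff (pderiv 1 q)) ha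
  have e4 := congrArg (fun q => constantCoeff (pderiv 1 q)) hb
  rw [pderiv_X_self, Derivation.leibniz, map_add, smul_eq_mul, smul_eq_mul, map_mul, map_mul, h0, zero_mul,
    zero_add, map_one] at e1
  rw [pderiv_X_of_ne (by decide : (0 : Fin 2) ≠ 1), Derivation.leibniz, map_add, smul_eq_mul, smul_eq_mul, map_mul,
    map_mul, h0, zero_mul, zero_add, map_zero] at e2
  rw [pderiv_X_self, Derivation.leibniz, map_add, smul_eq_mul, smul_eq_mul, map_mul, map_mul, h0, zero_mul,
    zero_add, map_one] at e4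
  rcases mul_eq_zero.1 e2.symm with h | h
  · rw [h, zero_mul] at e1
    exact one_ne_zero e1
  · rw [h, mul_zero] at e4
    exact one_ne_zero e4

/-- isolated critical points are reduced -/
theorem red_of_iso {K : Type} [Field K] {G : MvPolynomial (Fin 2) K} {M : ℕ} (hG : IsoC G M)
    (h κ : MvPolynomial (Fin 2) K) (hh : G = h ^ 2 * κ) : constantCoeff h ≠ 0 := by
  classical
  intro h0
  -- a prime factor through the origin, or zero
  obtain ⟨π, hπP, hπh, hπ0, hπt⟩ : ∃ π : MvPolynomial (Fin 2) K, (Ideal.span {π}).IsPrime ∧ π ∣ h ∧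
      constantCoeff π = 0 ∧ True := by
    by_cases hz : h = 0
    · refine ⟨0, ?_, by rw [hz], map_zero _, trivial⟩
      rw [Ideal.span_singleton_eq_bot.2 rfl]
      exact Ideal.isPrime_bot
    · have hI : (RingHom.ker (constantCoeff : MvPolynomial (Fin 2) K →+* K)).IsPrime := RingHom.ker_isPrime _
      obtain ⟨π, hπ, hπh, hπI⟩ := prime_factor hI hz (by rw [RingHom.mem_ker]; exact h0)
      rw [RingHom.mem_ker] at hπI
      exact ⟨π, (Ideal.span_singleton_prime hπ.ne_zero).2 hπ, hπh, hπI, trivial⟩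
  set q := Ideal.Quotient.mk (Ideal.span {π}) with hq
  have hdom : IsDomain (MvPolynomial (Fin 2) K ⧸ Ideal.span {π}) := Ideal.Quotient.isDomain _
  set N : Ideal (MvPolynomial (Fin 2) K ⧸ Ideal.span {π}) := Ideal.map q (mI (Fin 2) K) with hN
  have hJ : Jac G ≤ Ideal.span {π} := by
    unfold Jac
    rw [Ideal.span_le]
    rintro _ ⟨i, rfl⟩
    rw [SetLike.mem_coe, Ideal.mem_span_singleton]
    show π ∣ pderiv i G
    refine hπh.trans ?_
    rw [hh]
    exact pd_dvd rfl i
  have h1 : N ^ M ≤ N ^ (M + 1) := by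
    have h2 := Ideal.map_mono (f := q) hG
    rw [Ideal.map_sup, Ideal.map_pow, Ideal.map_pow] at h2
    refine h2.trans (sup_le ?_ le_rfl)
    rw [Ideal.map_le_iff_le_comap]
    intro x hx
    rw [Ideal.mem_comap, hq, Ideal.Quotient.eq_zero_iff_mem.2 (hJ hx)]
    exact Ideal.zero_mem _
  have h2 : ∀ n, N ^ M ≤ N ^ (M + n) := by
    intro n
    induction n with
    | zero => exact le_rfl
    | succ n ih =>
      have e1 : N ^ (M + 1) = N ^ M * N := Submodule.pow_succ N
      have e2 : N ^ (M + (n + 1)) = N ^ (M + n) * N := Submodule.pow_succ N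
      rw [e2]
      refine h1.trans ?_
      rw [e1]
      exact Ideal.mul_mono_left ih
  have hNt : N ≠ ⊤ := by
    intro h3
    have h4 : (1 : MvPolynomial (Fin 2) K ⧸ Ideal.span {π}) ∈ N := by rw [h3]; trivial
    rw [hN, hq, Ideal.mem_map_iff_of_surjective _ Ideal.Quotient.mk_surjective] at h4
    obtain ⟨x, hx, hx1⟩ := h4
    have h5 : x - 1 ∈ Ideal.span {π} := by
      rw [← Ideal.Quotient.eq_zero_iff_mem, map_sub, hx1, map_one, sub_self]
    rw [Ideal.mem_span_singleton] at h5
    obtain ⟨w, hw⟩ := h5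
    have h6 := congrArg constantCoeff hw
    have h7 : constantCoeff x = 0 := by
      have h8 : mI (Fin 2) K ≤ RingHom.ker (constantCoeff : MvPolynomial (Fin 2) K →+* K) := by
        unfold mI idealOfVars
        rw [Ideal.span_le]
        rintro _ ⟨i, rfl⟩
        rw [SetLike.mem_coe, RingHom.mem_ker, constantCoeff_X]
      exact (RingHom.mem_ker).1 (h8 hx)
    rw [map_sub, h7, map_one, map_mul, hπ0, zero_mul, zero_sub] at h6
    exact one_ne_zero (neg_eq_zero.1 h6)
  have h3 : N ^ M = ⊥ := by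
    rw [eq_bot_iff, ← Ideal.iInf_pow_eq_bot_of_isDomain N hNt]
    refine le_iInf fun n => ?_
    exact (h2 n).trans (Ideal.pow_le_pow_right (by omega))
  refine no_both hπ0 fun i => ?_
  have h4 : q (X i) ∈ N := Ideal.mem_map_of_mem q (Ideal.subset_span ⟨i, rfl⟩)
  have h5 : q (X i) ^ M ∈ N ^ M := Ideal.pow_mem_pow h4 M
  rw [h3, Ideal.mem_bot] at h5
  have hM : M ≠ 0 := by
    intro h7
    rw [h7, pow_zero] at h5
    exact one_ne_zero h5
  have h6 : q (X i) = 0 := (pow_eq_zero_iff hM).1 h5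
  rw [hq, Ideal.Quotient.eq_zero_iff_mem, Ideal.mem_span_singleton] at h6
  exact h6

end Pool.Agent.J4H97.YP
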